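import Mathlib
import Pool.Agent.Work.MP_4077b5_an.Defs
import Pool.Agent.Work.MP_4077b5_an.Final

/-!
There is an ergodic `𝔽_2^ω`-system that is a translational system of degree `23`
and is not Abramov of order `23`.
-/

set_option autoImplicit false

open MeasureTheory

namespace Pool.Agent.Results.MP_4077b5_an.NotAbramov

open MP4077

theorem result :
    ∃ (X : Type) (_ : MeasurableSpace X) (_ : StandardBorelSpace X) (μ : Measure X)
      (T : FpOmega 2 → X → X),
      IsProbabilityMeasure μ ∧ (∀ x, μ {x} = 0) ∧ IsAction μ T ∧ IsErgodic μ T ∧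
        IsTranslational μ T 23 ∧ ¬ IsAbramov μ T 23 :=
  MP4077.main

end Pool.Agent.Results.MP_4077b5_an.NotAbramov
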